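import Pool.Agent.H669.FW.Pw
import Pool.Agent.H669.FW.Pts
import Pool.Agent.H669.FW.One

/-!
# Powers of generic forms: Nicklasson's conjecture for almost all numbers of forms

Let `n ≥ 3`. There is a constant `C = C(n)` such that for generic forms `g 1, …, g s` of degree `d`
in `n` variables and `I = (g 1 ^ e, …, g s ^ e)`

* for ALL `d, e ≥ 1` the Hilbert series of the quotient by `I` is the least one for `s` forms of
  degree `d e`, for all `s` but at most `C (d e) ^ (n - 2)` numbers `s` (the number of the `s` for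
  which `I` does not contain all forms of degree `d e` is about `(d e) ^ (n - 1) / (n - 1)!`);
* for every `s ≥ 3 ^ (n - 1)` it is the least one for all `d, e` for which the product `d e` lies
  outside a set of density at most `C / (ρ - 1)`, `ρ = s ^ (1 / (n - 1))`;
* if `s ≥ (C + 1) ^ (n - 1)`, then for ALL `d, e` it is the least one up to at most ONE coefficient.

Proof. The forms are specialised to powers of linear forms. By the duality of Emsalem and Iarrobino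
the quotient in degree `k` is then dual to the forms of degree `k` with multiplicity
`m = k + 1 - d e` at `s` general points of the projective space of dimension `n - 1`. By the theorem
of the team on bounded windows (`AllMultiplicitiesWindow` of `MP_b56c98_ag`) the dimension is the
expected one if the distance between `k` and the critical degree
`T(m) = (s m (m + 1) ⋯ (m + n - 2)) ^ (1 / (n - 1))` is at least a constant. Since
`T(m + 1) ≥ T(m) + ρ` (superadditivity of the geometric mean), for given `d e` the degrees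
`k = d e + m - 1` move away from `T(m)` with speed `ρ - 1`, and the bad cases can be counted.
-/

set_option autoImplicit false

namespace Pool.Agent.Results.MP_e0014e_ag.AlmostAllNumbersOfForms

open MvPolynomial

/-- The Hilbert function of the quotient of `ℂ[x_1, …, x_n]` by the ideal generated by the forms
`f i`, in degree `k`. -/
noncomputable def hilb {n r : ℕ} (f : Fin r → MvPolynomial (Fin n) ℂ) (k : ℕ) : ℤ :=
  (Module.finrank ℂ (MvPolynomial.homogeneousSubmodule (Fin n) ℂ k) : ℤ) -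
    (Module.finrank ℂ
      ↥(Submodule.restrictScalars ℂ (Ideal.span (Set.range f)) ⊓
        MvPolynomial.homogeneousSubmodule (Fin n) ℂ k) : ℤ)

/-- For generic forms `g i` of degree `d` the Hilbert function of the quotient by the powers
`g i ^ e` is in all degrees `k ∈ S` the least possible one for `s` forms of degree `d e`. -/
def MinimalIn (n s d e : ℕ) (S : Set ℕ) : Prop :=
  ∃ P : MvPolynomial (Σ _ : Fin s, {m : Fin n →₀ ℕ // Finsupp.degree m = d}) ℂ, P ≠ 0 ∧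
    ∀ g : Fin s → MvPolynomial (Fin n) ℂ, (∀ i, (g i).IsHomogeneous d) →
      MvPolynomial.eval (fun q : (Σ _ : Fin s, {m : Fin n →₀ ℕ // Finsupp.degree m = d}) =>
        (g q.1).coeff q.2.1) P ≠ 0 →
      ∀ k ∈ S, ∀ f : Fin s → MvPolynomial (Fin n) ℂ, (∀ i, (f i).IsHomogeneous (d * e)) →
        hilb (fun i => g i ^ e) k ≤ hilb f k

/-- For generic forms `g i` of degree `d` the Hilbert series of the quotient by the powers `g i ^ e`
is the one of the quotient by generic forms of degree `d e`, the least possible one. -/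
def HilbertMinimal (n s d e : ℕ) : Prop := MinimalIn n s d e Set.univ

/-- The critical degree for the multiplicity `m`: the number `T ≥ 0` with
`T ^ (n - 1) = s m (m + 1) ⋯ (m + n - 2)`. -/
noncomputable def critical (n s m : ℕ) : ℝ :=
  ((s : ℝ) * ∏ i ∈ Finset.range (n - 1), ((m : ℝ) + i)) ^ ((1 : ℝ) / (n - 1))

lemma mono {n s d e : ℕ} {S S' : Set ℕ} (h : MinimalIn n s d e S) (hS : S' ⊆ S) :
    MinimalIn n s d e S' := by
  obtain ⟨P, h0, h1⟩ := h
  exact ⟨P, h0, fun g hg ha k hk => h1 g hg ha k (hS hk)⟩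

/-- The least values outside a window of bounded length. -/
theorem outside (j : ℕ) : ∃ C : ℕ, ∀ r d e : ℕ, 3 ^ (j + 2) ≤ r → 1 ≤ d → 1 ≤ e →
    MinimalIn (j + 3) r d e {k | d * e ≤ k →
      (C : ℝ) ≤ |(k : ℝ) - Pool.Agent.H929.BW.crit (j + 2) r (k + 1 - d * e)|} := by
  classical
  obtain ⟨C₁, hC₁⟩ := Pool.Agent.H669.FW.pw j
  obtain ⟨C₂, hC₂⟩ := Pool.Agent.H669.FW.both j
  refine ⟨C₁ + C₂, fun r d e hr hd he => ?_⟩
  obtain ⟨P, hP, h⟩ := hC₁ r d e hr hd he ℂ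
  refine ⟨P, hP, fun g hg ha k hk f hf => ?_⟩
  have hc1 : (0 : ℝ) ≤ C₁ := Nat.cast_nonneg _
  have hc2 : (0 : ℝ) ≤ C₂ := Nat.cast_nonneg _
  have h1 := h g hg ha k (fun hdk => by
    have := hk hdk
    push_cast at this ⊢
    linarith)
  obtain ⟨Q, hQ, hQ2⟩ := (hC₂ r (d * e) hr (Nat.mul_pos hd he) ℂ).1
  obtain ⟨R, hR, hR2⟩ := Pool.Agent.TH176.FB.spec' ℂ ℂ (j + 3) r k (fun _ => d * e) f hf
  -- generic forms
  obtain ⟨y, hy⟩ : ∃ y : (Σ _ : Fin r, {m : Fin (j + 3) →₀ ℕ // Finsupp.degree m = d * e}) → ℂ,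
      eval y (Q * R) ≠ 0 := by
    by_contra hcon
    push Not at hcon
    exact mul_ne_zero hQ hR (MvPolynomial.funext fun x => by rw [hcon x, map_zero])
  have : Finite {m : Fin (j + 3) →₀ ℕ // Finsupp.degree m = d * e} := H350MG.finite_deg (d * e)
  have := Fintype.ofFinite {m : Fin (j + 3) →₀ ℕ // Finsupp.degree m = d * e}
  let F : Fin r → MvPolynomial (Fin (j + 3)) ℂ := fun i =>
    ∑ m : {m : Fin (j + 3) →₀ ℕ // Finsupp.degree m = d * e}, monomial m.1 (y ⟨i, m⟩)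
  have hF : ∀ i, (F i).IsHomogeneous (d * e) := fun i =>
    IsHomogeneous.sum _ _ _ fun m _ => isHomogeneous_monomial _ m.2
  have hFy : (fun q : (Σ _ : Fin r, {m : Fin (j + 3) →₀ ℕ // Finsupp.degree m = d * e}) =>
      (F q.1).coeff q.2.1) = y := by
    funext q
    show coeff q.2.1 (∑ m : {m : Fin (j + 3) →₀ ℕ // Finsupp.degree m = d * e},
      monomial m.1 (y ⟨q.1, m⟩)) = y q
    rw [coeff_sum, Finset.sum_eq_single q.2]
    · rw [coeff_monomial, if_pos rfl]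
    · intro m' _ hm'
      rw [coeff_monomial, if_neg]
      intro h'; exact hm' (Subtype.ext h')
    · intro h'; exact absurd (Finset.mem_univ _) h'
  rw [map_mul] at hy
  have h2 := hQ2 F hF (by rw [hFy]; exact left_ne_zero_of_mul hy) k (fun hdk => by
    have := hk hdk
    push_cast at this ⊢
    linarith)
  have h3 := hR2 F hF (by rw [hFy]; exact right_ne_zero_of_mul hy)
  have h4 : hilb F k ≤ hilb f k := by
    show Pool.Agent.TH206.Fro.hilb F k ≤ Pool.Agent.TH206.Fro.hilb f k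
    rw [Pool.Agent.H669.FO.hilb_eq_card, Pool.Agent.H669.FO.hilb_eq_card]
    have : (Module.finrank ℂ (Pool.Agent.TH176.FB.ik f k) : ℤ) ≤
      Module.finrank ℂ (Pool.Agent.TH176.FB.ik F k) := by exact_mod_cast h3
    omega
  have h5 : hilb (fun i => g i ^ e) k = hilb F k := h1.trans h2.symm
  rw [h5]
  exact h4

/-- **Main result.** For every `n ≥ 3` there is a constant `C` such that for the ideals generated by
the powers `g 1 ^ e, …, g s ^ e` of generic forms of degree `d` in `n` variables: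

(1) for all `d, e ≥ 1` the Hilbert series of the quotient is the one for generic forms of degree
`d e`, that is, the least one for `s` forms of degree `d e`, for all `s` but at most
`C (d e) ^ (n - 2)`;

(2) for every `s ≥ 3 ^ (n - 1)` and every `X`, at most `C (X + C) / (ρ - 1)` of the numbers
`δ ≤ X` are products `δ = d e` for which this is not the case, where `ρ = s ^ (1 / (n - 1))`;

(3) for every `s ≥ 3 ^ (n - 1)` and `d, e ≥ 1` there is a `k₀` such that the Hilbert function of the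
quotient is the least one in all degrees `k < k₀` and in all degrees `k ≥ k₀ + C / (ρ - 1)`; so,
if `ρ ≥ C + 1`, in all degrees but `k₀`;

(4) for `s ≥ 3 ^ (n - 1)` and `d, e ≥ 1` it is the least one in all degrees `k < d e` and in all
degrees `k` whose distance from the critical degree for the multiplicity `k + 1 - d e` is at least
`C`. -/
theorem result (n : ℕ) (hn : 3 ≤ n) : ∃ C : ℕ,
    (∀ d e : ℕ, 1 ≤ d → 1 ≤ e → {s : ℕ | ¬ HilbertMinimal n s d e}.Finite ∧
      ({s : ℕ | ¬ HilbertMinimal n s d e}.ncard : ℝ) ≤ C * ((d * e : ℕ) : ℝ) ^ (n - 2)) ∧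
    ∀ s : ℕ, 3 ^ (n - 1) ≤ s →
      (∀ X : ℕ, ((s : ℝ) ^ ((1 : ℝ) / (n - 1)) - 1) *
        ({δ : ℕ | 1 ≤ δ ∧ δ ≤ X ∧ ∃ d e : ℕ, d * e = δ ∧ ¬ HilbertMinimal n s d e}.ncard : ℝ) ≤
          C * (X + C)) ∧
      ∀ d e : ℕ, 1 ≤ d → 1 ≤ e →
        (∃ k₀ : ℕ, MinimalIn n s d e
          {k | k < k₀ ∨ (C : ℝ) ≤ ((s : ℝ) ^ ((1 : ℝ) / (n - 1)) - 1) * ((k : ℝ) - k₀)}) ∧
        ((C + 1) ^ (n - 1) ≤ s → ∃ k₀ : ℕ, MinimalIn n s d e {k | k ≠ k₀}) ∧
        MinimalIn n s d e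
          {k | k < d * e ∨ (C : ℝ) ≤ |(k : ℝ) - critical n s (k + 1 - d * e)|} := by
  obtain ⟨j, rfl⟩ : ∃ j, n = j + 3 := ⟨n - 3, by omega⟩
  have e1 : j + 3 - 1 = j + 2 := rfl
  have e2 : j + 3 - 2 = j + 1 := rfl
  obtain ⟨C₀, hC₀⟩ := outside j
  obtain ⟨A, hA⟩ := Pool.Agent.H669.FW.card_bad_r (j + 1) (by omega) C₀
  rw [e1, e2]
  have hgood : ∀ r d e : ℕ, 3 ^ (j + 2) ≤ r → 1 ≤ d → 1 ≤ e → (¬ ∃ m : ℕ, 1 ≤ m ∧
      |((d * e : ℕ) : ℝ) + m - 1 - Pool.Agent.H929.BW.crit (j + 2) r m| < C₀) →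
      HilbertMinimal (j + 3) r d e := by
    intro r d e hr hd he h
    refine mono (hC₀ r d e hr hd he) fun k _ hk => ?_
    by_contra hcon
    push Not at hcon
    refine h ⟨k + 1 - d * e, by omega, ?_⟩
    have e : ((d * e : ℕ) : ℝ) + ((k + 1 - d * e : ℕ) : ℝ) - 1 = k := by
      rw [Nat.cast_sub (by omega)]
      push_cast
      ring
    rw [e]
    exact hcon
  refine ⟨A + 3 ^ (j + 2) + 2 * C₀, fun d e hd he => ?_,
    fun r hr => ⟨fun X => ?_, fun d e hd he => ?_⟩⟩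
  · -- most numbers of forms
    have hδ : 1 ≤ d * e := Nat.mul_pos hd he
    obtain ⟨hfin, hcard⟩ := hA (d * e) hδ
    have hsub : {r : ℕ | ¬ HilbertMinimal (j + 3) r d e} ⊆ (Set.Iio (3 ^ (j + 2)) : Set ℕ) ∪
        {r : ℕ | 3 ^ (j + 1 + 1) ≤ r ∧ ∃ m : ℕ, 1 ≤ m ∧
          |((d * e : ℕ) : ℝ) + m - 1 - Pool.Agent.H929.BW.crit (j + 1 + 1) r m| < C₀} := by
      intro r hr
      rcases lt_or_ge r (3 ^ (j + 2)) with h | h
      · exact Or.inl h
      · refine Or.inr ⟨h, ?_⟩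
        by_contra hcon
        exact hr (hgood r d e h hd he hcon)
    have hfin2 := (Set.finite_Iio (3 ^ (j + 2))).union hfin
    refine ⟨hfin2.subset hsub, ?_⟩
    have h1 := (Set.ncard_le_ncard hsub hfin2).trans (Set.ncard_union_le _ _)
    have h2 : (Set.Iio (3 ^ (j + 2)) : Set ℕ).ncard = 3 ^ (j + 2) := by
      rw [← Finset.coe_Iio, Set.ncard_coe_finset, Nat.card_Iio]
    rw [h2] at h1
    have hdR : (1 : ℝ) ≤ ((d * e : ℕ) : ℝ) ^ (j + 1) := one_le_pow₀ (by exact_mod_cast hδ)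
    have h3 : ({r : ℕ | ¬ HilbertMinimal (j + 3) r d e}.ncard : ℝ) ≤ ((3 ^ (j + 2) : ℕ) : ℝ) +
        A * ((d * e : ℕ) : ℝ) ^ (j + 1) :=
      le_trans (by exact_mod_cast h1) (add_le_add le_rfl hcard)
    have h4 : ((3 ^ (j + 2) : ℕ) : ℝ) ≤ ((3 ^ (j + 2) : ℕ) : ℝ) * ((d * e : ℕ) : ℝ) ^ (j + 1) :=
      le_mul_of_one_le_right (Nat.cast_nonneg _) hdR
    have h5 : 0 ≤ 2 * (C₀ : ℝ) * ((d * e : ℕ) : ℝ) ^ (j + 1) := by positivity
    obtain ⟨w, hw⟩ : ∃ w : ℝ, ((d * e : ℕ) : ℝ) ^ (j + 1) = w := ⟨_, rfl⟩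
    rw [hw] at h3 h4 h5 ⊢
    push_cast at h3 h4 ⊢
    nlinarith
  · -- most degrees
    obtain ⟨hρ, hρr⟩ := Pool.Agent.H669.FW.root hr
    have h1 := Pool.Agent.H669.FW.card_bad (j := j + 1) (r := r) (by linarith) hρr C₀ X
    have hsub : {δ : ℕ | 1 ≤ δ ∧ δ ≤ X ∧ ∃ d e : ℕ, d * e = δ ∧
        ¬ HilbertMinimal (j + 3) r d e} ⊆
        {δ : ℕ | 1 ≤ δ ∧ δ ≤ X ∧ ∃ m : ℕ, 1 ≤ m ∧
          |(δ : ℝ) + m - 1 - Pool.Agent.H929.BW.crit (j + 1 + 1) r m| < C₀} := by
      rintro δ ⟨hd, hdX, d, e, rfl, hE⟩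
      refine ⟨hd, hdX, ?_⟩
      by_contra hcon
      exact hE (hgood r d e hr (Nat.pos_of_mul_pos_right hd) (Nat.pos_of_mul_pos_left hd) hcon)
    have hfin : {δ : ℕ | 1 ≤ δ ∧ δ ≤ X ∧ ∃ m : ℕ, 1 ≤ m ∧
          |(δ : ℝ) + m - 1 - Pool.Agent.H929.BW.crit (j + 1 + 1) r m| < C₀}.Finite :=
      (Set.finite_Icc 1 X).subset fun δ hδ => ⟨hδ.1, hδ.2.1⟩
    have h2 : ({δ : ℕ | 1 ≤ δ ∧ δ ≤ X ∧ ∃ d e : ℕ, d * e = δ ∧
        ¬ HilbertMinimal (j + 3) r d e}.ncard : ℝ) ≤
        ({δ : ℕ | 1 ≤ δ ∧ δ ≤ X ∧ ∃ m : ℕ, 1 ≤ m ∧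
          |(δ : ℝ) + m - 1 - Pool.Agent.H929.BW.crit (j + 1 + 1) r m| < C₀}.ncard : ℝ) := by
      exact_mod_cast Set.ncard_le_ncard hsub hfin
    refine (mul_le_mul_of_nonneg_left h2 (by linarith)).trans (h1.trans ?_)
    have h3 : (0 : ℝ) ≤ X := Nat.cast_nonneg X
    have h4 : (2 : ℝ) * C₀ ≤ ((A + 3 ^ (j + 2) + 2 * C₀ : ℕ) : ℝ) := by
      push_cast
      have : (0 : ℝ) ≤ A := Nat.cast_nonneg A
      have : (0 : ℝ) ≤ 3 ^ (j + 2) := by positivity
      linarith
    have h5 : (C₀ : ℝ) ≤ ((A + 3 ^ (j + 2) + 2 * C₀ : ℕ) : ℝ) := by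
      have : (0 : ℝ) ≤ C₀ := Nat.cast_nonneg C₀
      linarith
    exact mul_le_mul h4 (by linarith) (by positivity) (Nat.cast_nonneg _)
  · -- given forms
    obtain ⟨hρ, hρr⟩ := Pool.Agent.H669.FW.root hr
    set ρ : ℝ := (r : ℝ) ^ ((1 : ℝ) / (((j + 3 : ℕ) : ℝ) - 1)) with hρdef
    have hC : (2 : ℝ) * C₀ ≤ ((A + 3 ^ (j + 2) + 2 * C₀ : ℕ) : ℝ) := by
      push_cast
      have : (0 : ℝ) ≤ A := Nat.cast_nonneg A
      have : (0 : ℝ) ≤ 3 ^ (j + 2) := by positivity
      linarith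
    obtain ⟨k₀, hk₀⟩ := Pool.Agent.H669.FW.exists_first (j := j + 1) (r := r) (d * e) C₀
      (by linarith) hρr
    have hmain : MinimalIn (j + 3) r d e
        {k | k < k₀ ∨ 2 * (C₀ : ℝ) ≤ (ρ - 1) * ((k : ℝ) - k₀)} :=
      mono (hC₀ r d e hr hd he) fun k hk hδ => hk₀ k hk hδ
    refine ⟨⟨k₀, mono hmain fun k hk => ?_⟩, fun hbig => ⟨k₀, mono hmain fun k hk => ?_⟩, ?_⟩
    · rcases hk with h | h
      · exact Or.inl h
      · exact Or.inr (hC.trans h)
    · have hρ2 : ((A + 3 ^ (j + 2) + 2 * C₀ : ℕ) : ℝ) + 1 ≤ ρ := by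
        refine le_of_not_gt fun hcon => ?_
        have h1 := pow_lt_pow_left₀ hcon (by linarith) (by omega : j + 2 ≠ 0)
        rw [hρr] at h1
        have h2 : r < (A + 3 ^ (j + 2) + 2 * C₀ + 1) ^ (j + 2) := by exact_mod_cast h1
        omega
      rcases lt_or_gt_of_ne (hk : k ≠ k₀) with h | h
      · exact Or.inl h
      · refine Or.inr ?_
        have h1 : (1 : ℝ) ≤ (k : ℝ) - k₀ := by
          have : (k₀ : ℝ) + 1 ≤ k := by exact_mod_cast h
          linarith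
        have h2 : (2 : ℝ) * C₀ ≤ ρ - 1 := by linarith
        have h3 : (0 : ℝ) ≤ ρ - 1 := by linarith
        nlinarith
    · refine mono (hC₀ r d e hr hd he) fun k hk hδ => ?_
      rw [Pool.Agent.H669.FW.crit_eq]
      rcases hk with h | h
      · omega
      · refine le_trans ?_ h
        have : (0 : ℝ) ≤ C₀ := Nat.cast_nonneg C₀
        linarith

end Pool.Agent.Results.MP_e0014e_ag.AlmostAllNumbersOfForms
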